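import Pool.Agent.H13.Z12.Defs2
import Pool.Agent.H28.Z12.CoverDefs

/-!
Kernel evaluation of a table of refuted patterns which share the entries of one block
(MP_1e71f9_co).
-/

set_option autoImplicit false

namespace Pool.Agent.H54.Z12

open Pool.Agent.H13.Z12.B2 (ou)
open Pool.Agent.H28.Z12.Cov (ngM ngV band)

noncomputable section

/-- The false literals of the chart and of the sorted frame. -/
def KU : Nat := nat_lit 0x10000000000000000000000000000000000000000000000000000000000000000000000000000000000000000000000000000000000000000000000000000000100000000000000000000000000000000000000000000000000000000000000010000000000000000000000000000000100000000000000010680080680080002080000080000000000000000000000000000000000000000000000000000000000000000000000000000000000000000000000000000000000000000000000010000000000000000000000000000000000000000000000000000000000000001000000000000000000000000000000010000000000000001000000000000000208000008000000000000000000000000000000000000000000000000000000010000000000000000000000000000000100000000000000010000000000000002080000080000000000000000000000010000000000000001000000000000000208000008000000010000000000000002080000080000000208000008000000080000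000000000000000000000000000000000000000000000000000000000000000000000000000000000000000000000000000000000000000000000000000000000000000000000000000000000000000000000000000000000000000000000000000000000000000000000000000000000000000000000000000000000000000000000000000000000000000000000000000000000000000000000000000000000000000000000000000000000000000000000000000000000000000000000000000000000000000000000000000000000000000000000000000000000000000000000000000000000000000000000000000000000000600680000800000480080000000000000000000000000000000000000000000000000000000000000000000000000000000000000000000000000000000000000000000000000000000000000000000000000000000000000000000000000000000000000000000000000000000000000000000000000000000000000000000000000000000000048008000000000000000000000000000000000000000000000000000000000000000000000000000000000000000000000000000000000000000000000000000480080000000000000000000000000000000000000000000000000000000000048008000000000000000000000000000480080000000000048008000000000000000000000000000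

/-- Positions of the 36 signs, 12 bits each. -/
def posT : Nat := nat_lit 0x7e07d07c87c47c27c1be0bd0bc8bc4bc2bc1de0dd0dc8dc4dc2dc1ee0ed0ec8ec4ec2ec1f60f50f48f44f42f41fa0f90f88f84f82f81

/-- Complements of the parities of the 36 signs. -/
def parT : Nat := nat_lit 0x3f03f03f

/-- The false literal of the sign `i`. -/
def uLn (w d i : Nat) : Nat :=
  Nat.shiftLeft (nat_lit 1) (Nat.add (Nat.land (Nat.shiftRight posT (Nat.mul (nat_lit 12) i)) (nat_lit 4095))
    (Nat.shiftLeft (Nat.land (Nat.xor (Nat.xor (Nat.shiftRight parT i) (Nat.shiftRight w i)) d) (nat_lit 1)) (nat_lit 12)))

/-- The false literal of the sign `i`, if it belongs to the pattern. -/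
def uLi (m w d i : Nat) : Nat :=
  Nat.mul (Nat.land (Nat.shiftRight m i) (nat_lit 1)) (uLn w d i)

/-- The false literals of the signs of a pattern. -/
def uR (m w d B : Nat) (n : Nat) : Nat :=
  @Nat.rec (fun _ => Nat) B (fun i ih => Nat.lor ih (uLi m w d i)) n

/-- The false literals of a pattern in the sorted frame. -/
def uD (m w d : Nat) : Nat :=
  uR m w d (Nat.lor KU (Nat.shiftLeft (nat_lit 1) (Nat.add (nat_lit 4032) (Nat.shiftLeft d (nat_lit 12))))) (nat_lit 36)

def uM (m w : Nat) : Nat := uD m w (Nat.land (Nat.shiftRight w (nat_lit 36)) (nat_lit 1))

/-- Lemmas `s + fuel - 1, …, s`. -/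
def outS (R Y LM LR : Nat → Nat) (F : Nat → Bool) (s fuel : Nat) : Nat → Bool :=
  @Nat.rec (fun _ => Nat → Bool) F (fun n ih => ou R Y LM LR (Nat.add s n) ih) fuel

/-- Start and number of the lemmas of entry `i`. -/
def qS (Q i : Nat) : Nat := Nat.land (Nat.shiftRight Q (Nat.mul (nat_lit 32) i)) (nat_lit 65535)
def qN (Q i : Nat) : Nat :=
  Nat.land (Nat.shiftRight Q (Nat.add (Nat.mul (nat_lit 32) i) (nat_lit 16))) (nat_lit 65535)

/-- One entry: the last of its lemmas is the empty clause. -/
def oneE (R Y LM LR : Nat → Nat) (m w s n : Nat) : Bool :=
  band (band (Nat.ble (nat_lit 1) n) (Nat.ble (Nat.add s n) (nat_lit 16384)))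
    (band (Nat.beq (Nat.land (Nat.shiftRight m (nat_lit 36)) (nat_lit 1)) (nat_lit 1))
      (outS R Y LM LR (fun _ => Nat.beq (LM s) (nat_lit 0)) s n (uM m w)))

/-- Force the four numbers. -/
def fcB (x : Nat) (f : Nat → Bool) : Bool :=
  @Nat.rec (fun _ => Bool) (f (nat_lit 0)) (fun n _ => f (Nat.succ n)) x

def oneI (R Y LM LR : Nat → Nat) (P Q i : Nat) : Bool :=
  fcB (qS Q i) fun s => fcB (qN Q i) fun n => oneE R Y LM LR (ngM P i) (ngV P i) s n

/-- All entries. -/
def mul (R Y LM LR : Nat → Nat) (P Q nP : Nat) : Bool :=
  @Nat.rec (fun _ => Bool) true (fun i ih => band ih (oneI R Y LM LR P Q i)) nP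

end

end Pool.Agent.H54.Z12
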