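import Mathlib
import Pool.Agent.H13.Z12.Glue2
import Pool.Agent.H54.Z12.MDefs

/-!
Soundness of the kernel evaluation of a table of refuted patterns (MP_1e71f9_co).
-/

set_option autoImplicit false

namespace Pool.Agent.H54.Z12

open Pool.Agent.H77.Z12 Pool.Agent.H13.Z12 Pool.Agent.H13.Z12.B2 Pool.Agent.H64.Z12
open Pool.Agent.H28.Z12 Pool.Agent.H28.Z12.Cov

variable {χ T : ℕ → Bool}

/-- The twenty-nine signs of the sorted frame. -/
def E29 : List (ℕ × Bool) := [(2170, false), (2169, false), (2158, false), (2157, false), (2155, false), (2135, false), (252, true), (380, true), (444, true), (636, true), (700, true), (828, true), (1148, true), (1212, true), (1340, true), (1596, true), (2127, true), (2139, true), (2141, true), (2142, true), (2151, true), (2163, true), (2165, true), (2166, true), (2172, true), (2236, true), (2364, true), (2620, true), (3132, true)]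

theorem KU_eq : KU = 2 ^ (4096 + 63) ||| chartU ||| mkE E29 := by decide +kernel

theorem KU_lt : KU < 2 ^ 16384 := by decide +kernel

theorem tab_pos : ∀ i < 36, Nat.land (Nat.shiftRight posT (Nat.mul 12 i)) 4095 =
    mS (i / 6) ||| 2 ^ (i % 6) := by decide +kernel

theorem tab_par : ∀ i < 36, parT.testBit i =
    !(xor (ipm (mS (i / 6)) (i % 6)) (ipm (mS (i / 6)) (6 + i / 6))) := by decide +kernel

theorem sr_and_one (x k : ℕ) : Nat.land (Nat.shiftRight x k) 1 = (x.testBit k).toNat := by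
  change (x >>> k) &&& 1 = _
  rw [Nat.and_one_is_mod, Nat.toNat_testBit, Nat.shiftRight_eq_div_pow]

theorem xor_and_one (a b : ℕ) : Nat.land (Nat.xor a b) 1 = Nat.xor (Nat.land a 1) (Nat.land b 1) := by
  change (a ^^^ b) &&& 1 = (a &&& 1) ^^^ (b &&& 1)
  apply Nat.eq_of_testBit_eq
  intro i
  simp only [Nat.testBit_and, Nat.testBit_xor]
  cases a.testBit i <;> cases b.testBit i <;> cases (1 : ℕ).testBit i <;> rfl

theorem toNat_xor' (a b : Bool) : Nat.xor a.toNat b.toNat = (xor a b).toNat := by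
  cases a <;> cases b <;> rfl

theorem toNat_and_one (a : Bool) : Nat.land a.toNat 1 = a.toNat := by
  cases a <;> rfl

theorem uLn_eq {w i : ℕ} {d : Bool} (hd : w.testBit 36 = d) (hi : i < 36) :
    uLn w d.toNat i = fl (mS (i / 6) ||| 2 ^ (i % 6)) (uv w (i / 6) (i % 6)) := by
  have h1 : Nat.land (Nat.xor (Nat.xor (Nat.shiftRight parT i) (Nat.shiftRight w i)) d.toNat) 1 =
      (uv w (i / 6) (i % 6)).toNat := by
    rw [xor_and_one, xor_and_one, sr_and_one, sr_and_one, toNat_and_one, toNat_xor', toNat_xor',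
      tab_par i hi]
    congr 1
    unfold uv
    rw [hd]
    have e : 6 * (i / 6) + i % 6 = i := Nat.div_add_mod i 6
    rw [e]
    cases ipm (mS (i / 6)) (i % 6) <;> cases ipm (mS (i / 6)) (6 + i / 6) <;>
      cases w.testBit i <;> cases d <;> rfl
  have h2 : uLn w d.toNat i = Nat.shiftLeft 1 (Nat.add
      (Nat.land (Nat.shiftRight posT (Nat.mul 12 i)) 4095) (Nat.shiftLeft
        (Nat.land (Nat.xor (Nat.xor (Nat.shiftRight parT i) (Nat.shiftRight w i)) d.toNat) 1)
        12)) := rfl
  rw [h2, h1, tab_pos i hi]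
  generalize mS (i / 6) ||| 2 ^ (i % 6) = A
  cases uv w (i / 6) (i % 6)
  · have : fl A false = 2 ^ A := by unfold fl; rw [if_neg (by decide)]
    rw [this]
    change 1 <<< (A + 0 <<< 12) = _
    rw [Nat.zero_shiftLeft, Nat.add_zero, Nat.shiftLeft_eq, one_mul]
  · have : fl A true = 2 ^ (4096 + A) := by unfold fl; rw [if_pos rfl]
    rw [this]
    change 1 <<< (A + 1 <<< 12) = _
    have e : (1 : ℕ) <<< 12 = 4096 := rfl
    rw [e, Nat.shiftLeft_eq, one_mul, Nat.add_comm]

theorem uLi_eq {m w i : ℕ} {d : Bool} (hd : w.testBit 36 = d) (hi : i < 36) :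
    uLi m w d.toNat i = uLit m w (i / 6) (i % 6) := by
  have e : 6 * (i / 6) + i % 6 = i := Nat.div_add_mod i 6
  have h2 : uLi m w d.toNat i = Nat.mul (Nat.land (Nat.shiftRight m i) 1) (uLn w d.toNat i) := rfl
  rw [h2, sr_and_one, uLn_eq hd hi]
  unfold uLit
  rw [e]
  cases m.testBit i
  · rw [if_neg (by decide)]
    exact Nat.zero_mul _
  · rw [if_pos rfl]
    exact Nat.one_mul _

theorem base_eq {w : ℕ} {d : Bool} (hd : w.testBit 36 = d) :
    Nat.shiftLeft 1 (Nat.add 4032 (Nat.shiftLeft d.toNat 12)) = fl 4032 (w.testBit 36) := by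
  rw [hd]
  cases d
  · have : fl 4032 false = 2 ^ 4032 := by unfold fl; rw [if_neg (by decide)]
    rw [this]
    change 1 <<< (4032 + 0 <<< 12) = _
    rw [Nat.zero_shiftLeft, Nat.add_zero, Nat.shiftLeft_eq, one_mul]
  · have : fl 4032 true = 2 ^ (4096 + 4032) := by unfold fl; rw [if_pos rfl]
    rw [this]
    change 1 <<< (4032 + 1 <<< 12) = _
    have e : (1 : ℕ) <<< 12 = 4096 := rfl
    rw [e, Nat.shiftLeft_eq, one_mul, Nat.add_comm]

theorem uR_eq {m w : ℕ} {d : Bool} (hd : w.testBit 36 = d) {B B' X : ℕ} (hB : B = B' ||| X) :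
    ∀ n ≤ 36, uR m w d.toNat B n =
      (List.range n).foldl (fun a i => a ||| uLit m w (i / 6) (i % 6)) B' ||| X := by
  intro n
  induction n with
  | zero => intro _; exact hB
  | succ n ih =>
    intro hn
    have h1 : uR m w d.toNat B (n + 1) = (uR m w d.toNat B n) ||| (uLi m w d.toNat n) := rfl
    rw [h1, ih (by omega), uLi_eq hd (by omega), List.range_succ, List.foldl_append]
    simp only [List.foldl_cons, List.foldl_nil]
    rw [Nat.lor_assoc, Nat.lor_comm X, ← Nat.lor_assoc]

theorem uM_eq (m w : ℕ) : mkU m w ||| chartU ||| mkE E29 = uM m w := by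
  have hd : Nat.land (Nat.shiftRight w 36) 1 = (w.testBit 36).toNat := sr_and_one w 36
  have h1 : uM m w = uD m w (Nat.land (Nat.shiftRight w 36) 1) := rfl
  rw [h1, hd]
  have h2 : uD m w (w.testBit 36).toNat = uR m w (w.testBit 36).toNat (KU |||
    Nat.shiftLeft 1 (Nat.add 4032 (Nat.shiftLeft (w.testBit 36).toNat 12))) 36 := rfl
  rw [h2, base_eq rfl, uR_eq (B' := 2 ^ (4096 + 63) ||| fl 4032 (w.testBit 36))
    (X := chartU ||| mkE E29) rfl _ 36 (le_refl 36)]
  · unfold mkU
    rw [Nat.lor_assoc]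
  · rw [KU_eq]
    generalize (2 : ℕ) ^ (4096 + 63) = a
    generalize chartU = b
    generalize mkE E29 = c
    generalize fl 4032 (w.testBit 36) = e
    rw [Nat.lor_assoc, Nat.lor_assoc, Nat.lor_assoc]
    congr 1
    rw [← Nat.lor_assoc, Nat.lor_comm]

theorem Lo_of_lt {x : ℕ} (h : x < 2 ^ 16384) : Lo x := by
  intro i hi
  by_contra hc
  have : x.testBit i = false := Nat.testBit_lt_two_pow (lt_of_lt_of_le h
    (Nat.pow_le_pow_right (by norm_num) (by omega)))
  rw [this] at hi
  exact Bool.noConfusion hi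

theorem Lo_pos (a d : ℕ) (hd : d ≤ 1) : Lo (Nat.shiftLeft 1 (Nat.add (Nat.land a 4095)
    (Nat.shiftLeft d 12))) := by
  intro i hi
  rw [one_shl_testBit hi]
  have h1 : Nat.land a 4095 ≤ 4095 := Nat.and_le_right (n := a) (m := 4095)
  have h2 : Nat.shiftLeft d 12 = d * 4096 := by
    change d <<< 12 = _
    rw [Nat.shiftLeft_eq]
  change Nat.land a 4095 + Nat.shiftLeft d 12 < 16384
  rw [h2]
  omega

theorem land_one_le (a : ℕ) : Nat.land a 1 ≤ 1 := Nat.and_le_right (n := a) (m := 1)

theorem Lo_mul {a b : ℕ} (ha : a ≤ 1) (hb : Lo b) : Lo (Nat.mul a b) := by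
  rcases Nat.le_one_iff_eq_zero_or_eq_one.1 ha with rfl | rfl
  · intro i hi
    have e : Nat.mul 0 b = 0 := Nat.zero_mul b
    rw [e] at hi
    simp at hi
  · have e : Nat.mul 1 b = b := Nat.one_mul b
    rw [e]
    exact hb

theorem Lo_uR {m w d B : ℕ} (hB : Lo B) : ∀ n, Lo (uR m w d B n)
  | 0 => hB
  | n + 1 => Lo_or (Lo_uR hB n) (Lo_mul (land_one_le _) (Lo_pos _ _ (land_one_le _)))

theorem Lo_uM (m w : ℕ) : Lo (uM m w) := by
  refine Lo_uR (Lo_or (Lo_of_lt KU_lt) ?_) 36
  exact Lo_pos 4032 _ (land_one_le _)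

/-- **The loop over the lemmas of one entry.** -/
theorem outS_sound {R Y LM LR : ℕ → ℕ} {F : ℕ → Bool}
    (hE : EV χ T (fun j => Cl χ T (LM j)) R Y) (hLM : ∀ j, Lo (LM j)) (s fuel : ℕ) :
    s + fuel ≤ 16384 → ∀ U, FA χ T (fun j => Cl χ T (LM j)) U → outS R Y LM LR F s fuel U = true →
      (∀ j, s ≤ j → j < s + fuel → Cl χ T (LM j)) ∧
        ∃ V, FA χ T (fun j => Cl χ T (LM j)) V ∧ F V = true := by
  induction fuel with
  | zero =>
    intro _ U hU h
    exact ⟨fun j hj hj' => absurd hj' (not_lt.2 hj), U, hU, h⟩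
  | succ n' ih =>
    intro hn U hU h
    obtain ⟨n, hnn⟩ : ∃ n, n = s + n' := ⟨_, rfl⟩
    set r := Nat.shiftRight (LR n) (Nat.add (nat_lit 8) (Nat.mul (nat_lit 56)
      (Nat.land (LR n) (nat_lit 255)))) with hr
    set S := rl R Y (Nat.land r (nat_lit 255)) (Nat.mod (Nat.shiftRight r (nat_lit 22))
      (Nat.pow (nat_lit 2) (Nat.mul (nat_lit 60) (Nat.land r (nat_lit 255)))))
      (Nat.mul m1 (Nat.shiftLeft (nat_lit 1)
        (Nat.land (Nat.shiftRight r (nat_lit 8)) (nat_lit 12287)))) with hS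
    have h' : (@Nat.rec (fun _ => Bool) (outS R Y LM LR F s n' (Nat.lor (Nat.lor U (B2.addU (LM n)))
        (Nat.shiftLeft (nat_lit 1) (Nat.add (nat_lit 16384) n)))) B2.cf
        (Nat.xor (Nat.lor S (Nat.lor (LM n) U)) (Nat.lor (LM n) U)) : Bool) = true := by
      rw [hS, hr, hnn]
      exact h
    rcases hx : Nat.xor (Nat.lor S (Nat.lor (LM n) U)) (Nat.lor (LM n) U) with _ | w
    · rw [hx] at h'
      have h2 : outS R Y LM LR F s n' (Nat.lor (Nat.lor U (B2.addU (LM n)))
        (Nat.shiftLeft (nat_lit 1) (Nat.add (nat_lit 16384) n))) = true := h'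
      have hcl : Cl χ T (LM n) := by
        rcases Cl_or_Fa χ T (LM n) with hc | hf
        · exact hc
        · exfalso
          have hA : FA χ T (fun j => Cl χ T (LM j)) (Nat.lor (LM n) U) :=
            FA_or (FA_of_Fa hf (hLM n)) hU
          have hSA : FA χ T (fun j => Cl χ T (LM j)) S := by
            intro i hi
            refine hA i ?_
            by_contra hc
            rw [Bool.not_eq_true] at hc
            have h3 : (Nat.xor (Nat.lor S (Nat.lor (LM n) U)) (Nat.lor (LM n) U)).testBit i =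
                true := by
              change ((S ||| Nat.lor (LM n) U) ^^^ Nat.lor (LM n) U).testBit i = true
              rw [Nat.testBit_xor, Nat.testBit_or, hi, hc]
              rfl
            rw [hx] at h3
            simp at h3
          rw [hS] at hSA
          exact start_false (rl_sound hE _ _ _ hSA)
      have hU' : FA χ T (fun j => Cl χ T (LM j)) (Nat.lor (Nat.lor U (B2.addU (LM n)))
          (Nat.shiftLeft (nat_lit 1) (Nat.add (nat_lit 16384) n))) := by
        refine FA_or (FA_or hU (FA_addU hcl)) (FA_one (Or.inr ⟨?_, ?_, ?_⟩))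
        · exact Nat.le_add_right 16384 n
        · change 16384 + n < 32768
          omega
        · have e : 16384 + n - 16384 = n := by omega
          change Cl χ T (LM (16384 + n - 16384))
          rw [e]
          exact hcl
      obtain ⟨h5, h6⟩ := ih (by omega) _ hU' h2
      refine ⟨fun j hj hj' => ?_, h6⟩
      rcases Nat.lt_or_ge j n with h7 | h7
      · exact h5 j hj (by omega)
      · have : j = n := by omega
        rw [this]
        exact hcl
    · rw [hx] at h'
      exact Bool.noConfusion h'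

theorem fcB_eq (x : ℕ) (f : ℕ → Bool) : fcB x f = f x := by
  cases x <;> rfl

/-- **A table of refuted patterns.** -/
theorem multi_of {R Y LM LR : ℕ → ℕ} {P Q : ℕ}
    (hE : ∀ χ T : ℕ → Bool, RModel χ T → Simp χ 63 4095 →
      EV χ T (fun j => Cl χ T (LM j)) R Y)
    (hLM : ∀ j, Lo (LM j)) : ∀ {nP : ℕ}, mul R Y LM LR P Q nP = true →
      ∀ i < nP, RRefX (ngM P i) (ngV P i) E29 0 0
  | 0, _, i, hi => absurd hi (Nat.not_lt_zero i)
  | nP + 1, h, i, hi => by
    have h' : band (mul R Y LM LR P Q nP) (oneI R Y LM LR P Q nP) = true := h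
    rw [band_iff] at h'
    rcases Nat.lt_succ_iff_lt_or_eq.1 hi with hi | rfl
    · exact multi_of hE hLM h'.1 i hi
    · have h2 := h'.2
      rw [oneI, fcB_eq, fcB_eq, oneE, band_iff, band_iff, band_iff] at h2
      obtain ⟨⟨h3, h4⟩, h5, h6⟩ := h2
      have h3' : 1 ≤ qN Q i := Nat.le_of_ble_eq_true h3
      have h4' : qS Q i + qN Q i ≤ 16384 := Nat.le_of_ble_eq_true h4
      have h36 : (ngM P i).testBit 36 = true := by
        have h7 : Nat.land (Nat.shiftRight (ngM P i) 36) 1 = 1 := Nat.eq_of_beq_eq_true h5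
        rw [sr_and_one] at h7
        cases hb : (ngM P i).testBit 36
        · rw [hb] at h7
          exact absurd h7 (by decide)
        · rfl
      refine rrefX_of (U := uM (ngM P i) (ngV P i)) (off := 0) (lits := 0) h36 (by decide +kernel)
        (uM_eq _ _) (by decide +kernel) fun χ T hM hS s0 => ?_
      have hU : FA χ T (fun j => Cl χ T (LM j)) (uM (ngM P i) (ngV P i)) :=
        FA_of_Fa s0.1 (Lo_uM _ _)
      obtain ⟨g1, V, -, g2⟩ := outS_sound (hE χ T hM hS) hLM (qS Q i) (qN Q i) h4' _ hU h6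
      have g3 := g1 (qS Q i) (le_refl _) (by omega)
      have g4 : LM (qS Q i) = 0 := Nat.eq_of_beq_eq_true g2
      rw [g4] at g3
      exact Cl_zero g3

end Pool.Agent.H54.Z12
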