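import Mathlib
import Pool.Agent.H32.Z12.MG

/-!
A single refuted pattern as a table with one entry (MP_1e71f9_co).
-/

set_option autoImplicit false

namespace Pool.Agent.H54.Z12

open Pool.Agent.H77.Z12 Pool.Agent.H13.Z12 Pool.Agent.H64.Z12
open Pool.Agent.H28.Z12 Pool.Agent.H28.Z12.Cov Pool.Agent.H32.Z12

theorem one_rrefX {m w P E : ℕ} {L : List (ℕ × Bool)} (h : RRefX m w L 0 0)
    (h1 : ngM P 0 = m) (h2 : ngV P 0 = w) (h3 : zL Z29 (eT E 0) V29 = L) :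
    ∀ i < 1, RRefX (ngM P i) (ngV P i) (zL Z29 (eT E i) V29) 0 0 := by
  intro i hi
  obtain rfl : i = 0 := by omega
  rw [h1, h2, h3]
  exact h

theorem one_refX {m w P E : ℕ} {L : List (ℕ × Bool)} (h : RefX m w L 0 0)
    (h1 : ngM P 0 = m) (h2 : ngV P 0 = w) (h3 : zL Z29 (eT E 0) V29 = L) :
    ∀ i < 1, RefX (ngM P i) (ngV P i) (zL Z29 (eT E i) V29) 0 0 := by
  intro i hi
  obtain rfl : i = 0 := by omega
  rw [h1, h2, h3]
  exact h

end Pool.Agent.H54.Z12
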